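import Pool.Agent.N384.VF.Big5
import Pool.Agent.Results.MP_6babc4_nt.ThinSequences
import Pool.Agent.U569.APL.FamP

/-!
# Frey's inequality for elliptic curves with parameters formed from arbitrary sets, over all number fields of bounded
# degree and for all Weil restrictions

Frey asks for constants `κ`, `c` such that `h_F(A) ≤ κ log N_A + c` for all abelian varieties `A` over
`K` of dimension `g`. Let `J = A / D` be a rational function over `ℚ` in `r` variables, for example the
`j`-invariant of an elliptic curve over `ℚ(t₁, …, t_r)`, whose reductions modulo the primes have many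
poles in the mean (`MeanPoles`); this is so for the universal family `y² = x³ + t₁ x + t₂`.
`Holds κ c d A D v` (starting file `ThinSequences`): Frey's inequality with the constants `κ` and `c`
holds for ALL Weil restrictions `Res_{L/K} E`, where `L/K` is any extension of number fields,
`[L : ℚ] ≤ d`, and `E` is any elliptic curve over `L` of invariant `J (v)`.

**Theorem.** For every `ε > 0`, `d`, `β > 0` and `B` there are constants `κ`, `c` such that for every sequence
(`j = 0, 1, 2, …`) of finite families of integral vectors of the following kind Frey's inequality holds in this sense at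
all but the fraction `ε` of the members of the `j`-th family, for large `j`. The members are `c₀ + y`, where
`|c₀| ≤ q ^ B` and `y` is one of the following vectors (represented by `0, …, q - 1`), `q → ∞`:

* `y` in any family of vectors modulo `q` whose nontrivial Fourier coefficients are at most
  `1 / (Z (42 + 3 log q) ^ r)`, `q ^ β ≤ Z ≤ q` (`PowerFlat`);
* (the last four with `q = P` prime, `0 < δ ≤ 1` and `β = δ / 8`) `b(x, z) + u(x) + w(z)`, where
  `b : k ^ m × k ^ n → k ^ r` is bilinear, the nontrivial combinations of its coordinates have rank at least `ρ`, `x`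
  and `z` are in ARBITRARY sets `E` and `F` with `|E| |F| ≥ P ^ (m + n - ρ + δ)`, `u` and `w` are arbitrary functions;
* the same for `b(x, z) = x z`, `x` and `z` in ARBITRARY subsets of the field of `P ^ r` elements,
  `|E| |F| ≥ P ^ (r + δ)`;
* polynomials in `k` variables of degree at most `P ^ (δ / 4)`, all nontrivial combinations of which have a monomial with
  at least two variables, plus arbitrary functions of the single variables, on products of `k` ARBITRARY sets of at
  least `P ^ (1 / 2 + δ)` residues; for example (`r = 2`, `k = 3`) all but `ε |S| ³` of the curves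
  `y² = x³ + (a b mod P) x + (a b c mod P)`, `a, b, c ∈ S`;
* polynomials in one variable of degree at most `P ^ (δ / 4)`, no nontrivial combination of which is constant, on any
  subgroup of the multiplicative group modulo `P` with at least `P ^ (1 / 2 + δ)` elements.

New: the families. Starting libraries: `big5` (`N384.VF`, large prime divisors of the denominator at vectors of
residues) and `frey_of` (`ThinSequences`); the estimates of the Fourier coefficients on arbitrary sets are in `U569/APL`.
-/

set_option autoImplicit false

namespace Pool.Agent.Results.MP_6babc4_nt.ArbitrarySets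

open MvPolynomial Filter
open Pool.Agent.Results.MP_6babc4_nt.ThinSequences (Holds MeanPoles frey_of)
open Pool.Agent.U569.APL

theorem result (r : ℕ) (A D : MvPolynomial (Fin r) ℤ) (hD : D ≠ 0) (hM : MeanPoles A D) (d B : ℕ) :
    (∀ ε β : ℝ, 0 < ε → 0 < β → ∃ κ c : ℝ, 0 < κ ∧
      ∀ (τ : ℕ → Type) (s : ∀ j, Finset (τ j)) (v : ∀ j, τ j → Fin r → ℤ), PowerFlat β B s v →
        ∀ᶠ j in atTop, ({i : τ j | i ∈ s j ∧ ¬ Holds κ c d A D (v j i)}.ncard : ℝ) ≤ ε * (s j).card) ∧
    ExamplesP (Fin r) B := by
  refine ⟨fun ε β hε hβ => ?_, examplesP _ _⟩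
  obtain ⟨σ, hσ, Z₀, hZ₀⟩ := Pool.Agent.N384.VF.big5 hD hM ε β B hε hβ
  obtain ⟨c', hc'⟩ := frey_of hσ d
  have key : ∀ v : Fin r → ℤ, Pool.Agent.N141.TS.Big5 σ (eval v A) (eval v D) →
      Holds ((5 + d * σ) / 12) c' d A D v := fun v hb =>
    ⟨hb.1, fun L _ _ hL => hc' _ _ hb L hL⟩
  refine ⟨(5 + d * σ) / 12, c', by positivity, fun τ s v hs => ?_⟩
  filter_upwards [hs Z₀] with j hj
  obtain ⟨q, _, y, c₀, Z, h1, h2, h3, h4, h5, h6⟩ := hj
  have h7 : v j = fun i l => c₀ l + ((y i l).val : ℕ) := by
    funext i l
    exact h6 i l
  rw [h7]
  exact (Pool.Agent.N384.VF.ncard_mono fun i _ hn hb => hn (key _ hb)).trans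
    (hZ₀ (τ j) q (s j) y Z h1 h3 ⟨h2, h5⟩ c₀ h4)

end Pool.Agent.Results.MP_6babc4_nt.ArbitrarySets
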