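import Pool.Agent.U536.DS.RatN
import Pool.Agent.Results.MP_6babc4_nt.AllFieldsFrey

/-!
# Frey's inequality for the invariants near quotients of multiples of the integral combinations of two divisors of the
# values of multiplicative functions

Let `F_0`, `F_1` be positive multiplicative functions of at most polynomial growth with `F_i(p) ≤ M p` for the large
primes `p`, with different values at different large primes; for example Euler's function or the sum of the divisors.
There is an absolute constant `C` such that for all `0 < δ ≤ 3` there are `η > 0` and `ρ < 1` such that for all such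
`F_i`, all `b < 1`, `μ < b` and `0 ≤ c < 2 b - 1` and all large `N`, the following holds for all but `N ^ 2 exp (-(log
N)^c)` of the pairs `(m_0, m_1)` of positive integers `≤ N`. For EVERY pair `w` of integers `w_i ≥ exp ((log N)^b)` of the
form `w_i = h e + h' e'` with divisors `e`, `e'` of `F_i(m_i)` and integers `|h|, |h'| ≤ exp ((log N)^μ)` (depending on
`i`) such that `w_i ≥ w_j^ρ` for all `i`, `j`, and for ALL integers `u_i ≠ 0` and `v_i` which are bounded in absolute
value by `w_l ^ η` for some `l`, the following holds for the integers `α_i = u_i w_i + v_i`, `α_1 ≠ 0`: for ALL elliptic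
curves `E` over `ℚ` of invariant `α_0 / α_1` (all twists), `12 h_F(E)` is at most `(1 + δ) log (multNorm E) + 5 log
(addNorm E) + C`. Here `h_F(E)` is the (unstable) Faltings height, `multNorm E` the product of the primes of
multiplicative reduction and `addNorm E` that of the squares of the primes of additive reduction (primes above 3 only);
the right-hand side is at most `5 log N_E + C`. The pairs `w` include all pairs of comparable size of large sums and
differences `w_i` of ANY two divisors of the `F_i(m_i)`.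

Proof. But for few exceptional `m_i ≤ N`, the number of `m_i` with `g ∣ F_i(m_i)` is at most `N τ_J(g) / g` up to a factor
`exp ((log N)^s)`, `J = (log N)^a`, `a < s < b`, for all `g`: write `m_i = k' v` with `v` squarefree and composed of
primes larger than `N^(1/J)`, `k' ≤ exp (4 (log N)^a)`. Take for `g` the least common multiples of the pairs `(e, e')`:
the sum of `1 / [e, e']` over the pairs `e, e' ≤ X` with `h e + h' e' = w` is at most `4 U (1 + log X) τ(w) / w` if `|h|,
|h'| ≤ U`; the pairs near exceptional pairs are few, and the inequality `τ_J^q ≤ τ_K` for `K ≥ J^q` with Hölder's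
inequality bounds the sum. The pairs of the hand-in `CommonFactors` of this page have large common factors with the
`F_i(m_i)`; the sums and differences of two divisors of `F_i(m_i)` have in general none. `AllFieldsFrey` of the starting
library bounds the number of the exceptional invariants of height at most `B` by `B^(2 - θ)` up to a constant, `θ = δ / (4
(1 + δ))`; the pairs of integers with a given quotient are counted by their greatest common divisors.
-/

set_option autoImplicit false

namespace Pool.Agent.Results.MP_6babc4_nt.DivisorSums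

open Pool.Agent.N733.TG (LM lm_totient lm_sigma)
open Pool.Agent.U536.DS (CombT comb_rat combT_pm)
open Pool.Agent.Results.MP_6babc4_nt.AllFieldsFrey (FreySharp ExcSharp)

/-- **Frey's inequality for the invariants near quotients of multiples of the integral combinations of two divisors of the
values of multiplicative functions.** There is an absolute constant `C` such that for all `0 < δ ≤ 3` there are `η > 0`
and `ρ < 1` such that for all `F_0`, `F_1` which are LM, all `b < 1`, `μ < b` and `0 ≤ c < 2 b - 1` there is `N₀` such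
that for all `N ≥ N₀`: for all but at most `N ^ 2 exp (-(log N)^c)` of the pairs `m` of positive integers `≤ N`, for EVERY
pair `w` of integers `w_i ≥ exp ((log N)^b)` of the form `w_i = h e + h' e'` with divisors `e`, `e'` of `F_i(m_i)` and
integers `|h|, |h'| ≤ exp ((log N)^μ)`, with `w_i ≥ w_j^ρ` for all `i`, `j`, and for all integers `u_i ≠ 0`, `v_i` with
`|u_i|, |v_i| ≤ w_l ^ η` (for some `l` which does not depend on `i`) and `α_i = u_i w_i + v_i`, `α_1 ≠ 0`, the sharp form
`FreySharp δ C` of Frey's inequality holds for the invariant `α_0 / α_1`. Euler's function and the sum of the divisors are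
LM. The pairs of sums and differences `w_i ≥ exp ((log N)^b)` of two divisors of `F_i(m_i)` with `w_j^ρ ≤ w_i` are such
pairs `w`. -/
theorem result :
    (∃ C : ℝ, 0 < C ∧ ∀ δ : ℝ, 0 < δ → δ ≤ 3 → ∃ η ρ : ℝ, 0 < η ∧ 0 < ρ ∧ ρ < 1 ∧
      ∀ F : Fin 2 → ℕ → ℕ, (∀ i, LM (F i)) → ∀ b μ c : ℝ, μ < b → b < 1 → 0 ≤ c → c < 2 * b - 1 →
      ∃ N₀ : ℕ, ∀ N : ℕ, N₀ ≤ N →
      ({m : Fin 2 → ℕ | (∀ i, 1 ≤ m i ∧ m i ≤ N) ∧ ¬ ∀ w : Fin 2 → ℕ, CombT F b μ ρ N m w →
        ∀ u v α : Fin 2 → ℤ, (∃ l, ∀ i, u i ≠ 0 ∧ |(u i : ℝ)| ≤ (w l : ℝ) ^ η ∧ |(v i : ℝ)| ≤ (w l : ℝ) ^ η) →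
        (∀ i, α i = u i * (w i : ℤ) + v i) → α 1 ≠ 0 → FreySharp δ C ((α 0 : ℚ) / (α 1 : ℚ))}.ncard : ℝ) ≤
        (N : ℝ) ^ 2 * Real.exp (-(Real.log N ^ c))) ∧
    (LM Nat.totient ∧ LM (fun m => ∑ d ∈ m.divisors, d)) ∧
    ∀ (F : Fin 2 → ℕ → ℕ) (b μ ρ : ℝ) (N : ℕ) (m w : Fin 2 → ℕ), (∀ i, Real.exp (Real.log N ^ b) ≤ (w i : ℝ)) →
      (∀ i, ∃ s t : ℕ, s ∣ F i (m i) ∧ t ∣ F i (m i) ∧ (w i = s + t ∨ w i = s - t ∨ w i = s)) →
      (∀ i j, (w j : ℝ) ^ ρ ≤ (w i : ℝ)) → CombT F b μ ρ N m w := by
  refine ⟨?_, ⟨lm_totient, lm_sigma⟩, fun F b μ ρ N m w h1 h2 h3 => combT_pm h1 h2 h3⟩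
  obtain ⟨C, hC, h⟩ := AllFieldsFrey.result.1
  refine ⟨C, hC, fun δ hδ hδ3 => ?_⟩
  obtain ⟨θ, hθ⟩ : ∃ θ : ℝ, θ = δ / (2 * (1 + δ)) := ⟨_, rfl⟩
  have hθ0 : 0 < θ := by rw [hθ]; positivity
  have hθ1 : θ < 1 := by
    rw [hθ, div_lt_one (by positivity)]
    linarith
  obtain ⟨M, hM, hcount⟩ := h δ (θ / 2) hδ.le hδ3 (by positivity)
  obtain ⟨η, ρ, hη, hρ0, hρ1, hk⟩ := comb_rat (s := 2 - θ / 2) (by linarith) (by linarith)
  refine ⟨η, ρ, hη, hρ0, hρ1, fun F hF b μ c hμ hb hc hcb => ?_⟩
  have hcnt : ∀ B : ℝ, 1 ≤ B → {q : ℚ | q ∈ {j : ℚ | ¬ FreySharp δ C j} ∧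
      Height.logHeight₁ q ≤ Real.log B}.Finite ∧ ({q : ℚ | q ∈ {j : ℚ | ¬ FreySharp δ C j} ∧
      Height.logHeight₁ q ≤ Real.log B}.ncard : ℝ) ≤ M * B ^ (2 - θ / 2) := by
    intro B hB
    obtain ⟨h1, h2, -⟩ := hcount ℚ B hB
    have e : {q : ℚ | q ∈ {j : ℚ | ¬ FreySharp δ C j} ∧ Height.logHeight₁ q ≤ Real.log B} = ExcSharp ℚ δ C B := by
      ext q
      simp only [ExcSharp, AllFieldsFrey.Inv, Set.mem_ofPred_eq, Module.finrank_self, Nat.cast_one, one_mul]
      exact and_comm
    rw [e]
    refine ⟨h1.subset fun x hx => hx.1, ?_⟩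
    rw [Module.finrank_self, pow_one, ← hθ] at h2
    have e2 : 2 - θ + θ / 2 = 2 - θ / 2 := by ring
    rwa [e2] at h2
  obtain ⟨N₀, hN₀⟩ := hk M _ hcnt F hF μ b c hμ hb hc hcb
  refine ⟨N₀, fun N hN => le_trans (le_of_eq ?_) (hN₀ N hN)⟩
  simp only [Set.mem_ofPred_eq, not_not]

end Pool.Agent.Results.MP_6babc4_nt.DivisorSums
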