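import Pool.Agent.Results.MP_6babc4_nt.EveryOneParameterFamily
import Pool.Agent.U265.GM.Two

/-!
# Frey's inequality with ONE slope for ALL Weil restrictions of ALL curves of a family near the multiples of a real vector

Let `J = A / D` be a non-constant rational function over `ℚ`, of degree `N`, for example the invariant of an elliptic curve over
`ℚ(T)`. `HoldsAt s c₀ A D t` (starting result EveryOneParameterFamily): `J(t)` is finite, and Frey's inequality
`h_F(A) + c₀ [L : K] ≤ s log N_A` is true for ALL number fields `K`, ALL extensions `L` of `K`, of whatever degree, and the Weil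
restrictions `A = Res_{L/K} E` of ALL elliptic curves `E` over `L` of invariant `J(t)` (all twists; `A = E` for `L = K`).

The starting result: `HoldsAt` with the slope `s = (16 (N + 1) / ε + 3) / 6` for all but `O(B ^ ε)` of the about `B ^ 2` rational
numbers of height at most `B`, if `J` has at least two poles, and for all but `O(B ^ ε)` of the integers up to `B`, if `D` is not
constant; other starting results (`ThinSequences`, `ApproximationsAllFields`) are about 100 percent of the members of a sequence or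
of a box.

Here there are no exceptions in the windows, and only one slope `s`:

(1) Let `w_m ≥ 1` be a sequence for which the sums of the `w_m ^ (-t)` converge for all `t > τ` (`τ = 1 / c` for `w_m = m ^ c`,
`τ = 0` for `w_m = 2 ^ m`), `κ < 1` and let `J` have at least two poles. For all `v ∈ ℝ²` but a set of Hausdorff dimension at most
`(ε + τ) / (1 - κ)`: for all large `m` `HoldsAt s c₀ A D (x / y)`, `s = (16 (N + 1) / ε + 3) / 6`, for ALL pairs of coprime
integers `x`, `y ≠ 0` with `|x - w_m v_1|, |y - w_m v_2| ≤ w_m ^ κ`.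

(2) Let the sums converge for all `t > 0`. For all `v ∈ ℝ²` but a set of Hausdorff dimension ZERO: for all `κ < 1` and ALL `J` with
at least two poles there is ONE slope `s` such that this is so for all large `m`.

(3) The same for all real `a` but a set of dimension zero, all `κ < 1`, all `J` with `D` not constant (one pole is enough) and ALL
integers `x` with `|x - w_m a| ≤ w_m ^ κ`.

(4) If `w_m / log m → ∞`: for all real `α > 1` but a set of Hausdorff dimension zero, for all `ξ ≠ 0` in a given countable set, for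
all `κ < 1` and all `J` with `D` not constant, there is ONE slope `s` such that, for all large `m`, `HoldsAt s c₀ A D x` holds for
ALL integers `x` with `|x - ξ α ^ (w_m)| ≤ α ^ (κ w_m)`.

Proof. The cubes of the `v` with an exceptional pair in the window are the covers in the definition of the Hausdorff measure
(`Pool.Agent.U265.GM`); there are countably many functions `J`.
-/

set_option autoImplicit false

namespace Pool.Agent.Results.MP_6babc4_nt.UniformNearMultiples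

open Filter Polynomial
open Pool.Agent.Results.MP_6babc4_nt.EveryOneParameterFamily (IsFunction poleCount HoldsAt)

/-- The slope `(16 (N + 1) / ε + 3) / 6`. -/
noncomputable def slope (N : ℕ) (ε : ℝ) : ℝ := (16 * (N + 1) / ε + 3) / 6

/-- For all large `m` `HoldsAt s c₀ A D (x / y)` for ALL pairs of coprime integers `x`, `y ≠ 0` with
`|x - W_m v_1|, |y - W_m v_2| ≤ W_m ^ κ`. -/
def NearVector (s c₀ : ℝ) (A D : ℤ[X]) (κ : ℝ) (W : ℕ → ℝ) (v : Fin 2 → ℝ) : Prop :=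
  ∀ᶠ m : ℕ in atTop, ∀ x y : ℤ, IsCoprime x y → y ≠ 0 → |(x : ℝ) - W m * v 0| ≤ W m ^ κ →
    |(y : ℝ) - W m * v 1| ≤ W m ^ κ → HoldsAt s c₀ A D ((x : ℚ) / y)

/-- For all large `m` `HoldsAt s c₀ A D x` for ALL integers `x` with `|x - X_m| ≤ W_m ^ κ`. -/
def NearNumber (s c₀ : ℝ) (A D : ℤ[X]) (κ : ℝ) (W X : ℕ → ℝ) : Prop :=
  ∀ᶠ m : ℕ in atTop, ∀ x : ℤ, |(x : ℝ) - X m| ≤ W m ^ κ → HoldsAt s c₀ A D (x : ℚ)

/-- the functions with two poles -/
abbrev Two : Type := {p : ℕ × ℤ[X] × ℤ[X] // IsFunction p.1 p.2.1 p.2.2 ∧ 2 ≤ poleCount p.1 p.2.2}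

/-- the functions with a nonconstant denominator -/
abbrev Den : Type := {p : ℕ × ℤ[X] × ℤ[X] // IsFunction p.1 p.2.1 p.2.2 ∧ 1 ≤ p.2.2.natDegree}

lemma few_rat (c₀ : ℝ) (p : Two) (ε : ℝ) (hε : 0 < ε) :
    Pool.Agent.U265.GM.FewRat {t : ℚ | HoldsAt (slope p.1.1 ε) c₀ p.1.2.1 p.1.2.2 t}ᶜ ε := by
  obtain ⟨⟨d, A, D⟩, h1, h2⟩ := p
  exact (EveryOneParameterFamily.result d A D h1 ε c₀ hε).2.1 h2

lemma few_int (c₀ : ℝ) (p : Den) (ε : ℝ) (hε : 0 < ε) :
    Pool.Agent.U265.GM.FewInt {t : ℤ | HoldsAt (slope p.1.1 ε) c₀ p.1.2.1 p.1.2.2 t}ᶜ ε := by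
  obtain ⟨⟨d, A, D⟩, h1, h2⟩ := p
  exact (EveryOneParameterFamily.result d A D h1 ε c₀ hε).2.2 h2

theorem result (c₀ : ℝ) :
    (∀ (d : ℕ) (A D : ℤ[X]), IsFunction d A D → 2 ≤ poleCount d D → ∀ ε κ τ : ℝ, 0 < ε → κ < 1 → 0 ≤ τ →
      ∀ w : ℕ → ℝ, (∀ m, 1 ≤ w m) → (∀ t : ℝ, τ < t → Summable fun m => w m ^ (-t)) →
        dimH {v : Fin 2 → ℝ | ¬ NearVector (slope d ε) c₀ A D κ w v} ≤ ENNReal.ofReal ((ε + τ) / (1 - κ))) ∧
    (∀ w : ℕ → ℝ, (∀ m, 1 ≤ w m) → (∀ t : ℝ, 0 < t → Summable fun m => w m ^ (-t)) →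
      dimH {v : Fin 2 → ℝ | ¬ ∀ κ : ℝ, κ < 1 → ∀ (d : ℕ) (A D : ℤ[X]), IsFunction d A D → 2 ≤ poleCount d D →
        ∃ s : ℝ, NearVector s c₀ A D κ w v} = 0) ∧
    (∀ w : ℕ → ℝ, (∀ m, 1 ≤ w m) → (∀ t : ℝ, 0 < t → Summable fun m => w m ^ (-t)) →
      dimH {a : ℝ | ¬ ∀ κ : ℝ, κ < 1 → ∀ (d : ℕ) (A D : ℤ[X]), IsFunction d A D → 1 ≤ D.natDegree →
        ∃ s : ℝ, NearNumber s c₀ A D κ w (fun m => w m * a)} = 0) ∧
    (∀ (Ξ : Set ℝ) (w : ℕ → ℝ), Ξ.Countable → (∀ ξ ∈ Ξ, ξ ≠ 0) → (∀ m, 1 ≤ w m) →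
      Tendsto (fun m : ℕ => w m / Real.log m) atTop atTop →
      dimH {α : ℝ | 1 < α ∧ ¬ ∀ ξ ∈ Ξ, ∀ κ : ℝ, κ < 1 → ∀ (d : ℕ) (A D : ℤ[X]), IsFunction d A D → 1 ≤ D.natDegree →
        ∃ s : ℝ, NearNumber s c₀ A D κ (fun m => α ^ w m) (fun m => ξ * α ^ w m)} = 0) := by
  have hc := Pool.Agent.U265.GM.countable_poly
  refine ⟨fun d A D h1 h2 ε κ τ hε hκ hτ w hw hs => ?_, fun w hw hs => ?_, fun w hw hs => ?_,
    fun Ξ w hΞ hΞ0 hw hl => ?_⟩
  · refine le_trans (dimH_mono ?_) (Pool.Agent.U265.GM.near_dil hε.le (few_rat c₀ ⟨(d, A, D), h1, h2⟩ ε hε) hκ hτ w hw hs)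
    intro v hv h
    exact hv h
  · refine le_antisymm ?_ bot_le
    refine le_trans (dimH_mono ?_) (Pool.Agent.U265.GM.near_zero
      (fun (p : Two) ε => {t : ℚ | HoldsAt (slope p.1.1 ε) c₀ p.1.2.1 p.1.2.2 t}) (few_rat c₀) w hw hs).le
    intro v hv h
    refine hv fun κ hκ d A D h1 h2 => ?_
    obtain ⟨ε, hε, h3⟩ := h κ hκ ⟨(d, A, D), h1, h2⟩
    exact ⟨slope d ε, h3⟩
  · refine le_antisymm ?_ bot_le
    refine le_trans (dimH_mono ?_) (Pool.Agent.U265.GM.near_int_zero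
      (fun (p : Den) ε => {t : ℤ | HoldsAt (slope p.1.1 ε) c₀ p.1.2.1 p.1.2.2 t}) (few_int c₀) w hw hs).le
    intro a hv h
    refine hv fun κ hκ d A D h1 h2 => ?_
    obtain ⟨ε, hε, h3⟩ := h κ hκ ⟨(d, A, D), h1, h2⟩
    exact ⟨slope d ε, h3⟩
  · refine le_antisymm ?_ bot_le
    refine le_trans (dimH_mono ?_) (Pool.Agent.U265.GM.near_pow
      (fun (p : Den) ε => {t : ℤ | HoldsAt (slope p.1.1 ε) c₀ p.1.2.1 p.1.2.2 t}) (few_int c₀) Ξ hΞ hΞ0 w hw hl).le
    rintro α ⟨hα, hv⟩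
    refine ⟨hα, fun h => hv fun ξ hξ κ hκ d A D h1 h2 => ?_⟩
    obtain ⟨ε, hε, h3⟩ := h ξ hξ κ hκ ⟨(d, A, D), h1, h2⟩
    exact ⟨slope d ε, h3⟩

end Pool.Agent.Results.MP_6babc4_nt.UniformNearMultiples
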